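import Pool.Agent.REV.StmtsA2

/-!
# LPA of the squad REV (problem MP_bbfd73_gt)

`c RA` is Lipschitz from below near `c = 1`.
-/

set_option autoImplicit false

namespace Pool.Agent.REV.H69

open Set MeasureTheory
open Pool.Agent.REV

theorem pow_sub_le {u v m : ℝ} (hv : 0 ≤ v) (hvu : v ≤ u) (hu : u ≤ 1) (hm : 1 ≤ m) :
    u ^ m - v ^ m ≤ m * (u - v) := by
  rcases eq_or_lt_of_le (hv.trans hvu) with h | h
  · have hv0 : v = 0 := le_antisymm (by rw [h]; exact hvu) hv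
    rw [← h, hv0]
    simp
  · have h1 := one_add_mul_self_le_rpow_one_add (s := v / u - 1)
      (by have := div_nonneg hv h.le; linarith) hm
    rw [add_sub_cancel, Real.div_rpow hv h.le] at h1
    have h2 : 0 < u ^ m := Real.rpow_pos_of_pos h m
    have h3 : u ^ m ≤ u := by
      have := Real.rpow_le_rpow_of_exponent_ge h hu hm
      rwa [Real.rpow_one] at this
    have h4 : (1 + m * (v / u - 1)) * u ^ m ≤ v ^ m := by
      rwa [le_div_iff₀ h2] at h1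
    have h5 : 0 ≤ 1 - v / u := by
      rw [sub_nonneg, div_le_one h]
      exact hvu
    have h6 : u ^ m * (1 - v / u) ≤ u * (1 - v / u) := mul_le_mul_of_nonneg_right h3 h5
    have h7 : u * (1 - v / u) = u - v := by
      field_simp
    rw [h7] at h6
    have h8 : m * (u ^ m * (1 - v / u)) ≤ m * (u - v) :=
      mul_le_mul_of_nonneg_left h6 (by linarith)
    linarith

theorem int_F {f : ℝ → ℝ} (hf : Adm f) {c m a b : ℝ} (hc0 : 0 < c) (hc1 : c ≤ 1) (hm : 0 ≤ m)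
    (ha : 0 ≤ a) (hab : a ≤ b) (hb : b ≤ c) :
    IntervalIntegrable (fun x : ℝ => (1 - x ^ 2 / c ^ 2) ^ m * f x) volume a b := by
  rw [intervalIntegrable_iff_integrableOn_Ioc_of_le hab]
  obtain ⟨M, hM⟩ := hf.bdd
  refine Measure.integrableOn_of_bounded (M := M) (by simp) ?_ ?_
  · refine (Measurable.aestronglyMeasurable ?_)
    exact ((measurable_const.sub ((measurable_id.pow_const 2).div_const _)).pow_const m).mul hf.meas
  · rw [ae_restrict_iff' measurableSet_Ioc]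
    refine Filter.Eventually.of_forall fun x hx => ?_
    have hx0 : 0 ≤ x := ha.trans hx.1.le
    have hxc : x ≤ c := hx.2.trans hb
    have hx1 : x ∈ Icc (0 : ℝ) 1 := ⟨hx0, hxc.trans hc1⟩
    have h1 : x ^ 2 / c ^ 2 ≤ 1 := by
      rw [div_le_one (by positivity)]
      exact pow_le_pow_left₀ hx0 hxc 2
    have h0 : 0 ≤ x ^ 2 / c ^ 2 := by positivity
    have h2 : (1 - x ^ 2 / c ^ 2) ^ m ≤ 1 := Real.rpow_le_one (by linarith) (by linarith) hm
    have h3 : 0 ≤ (1 - x ^ 2 / c ^ 2) ^ m := Real.rpow_nonneg (by linarith) _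
    have h4 := hf.nonneg x hx1
    rw [Real.norm_eq_abs, abs_of_nonneg (mul_nonneg h3 h4)]
    calc (1 - x ^ 2 / c ^ 2) ^ m * f x ≤ 1 * f x := mul_le_mul_of_nonneg_right h2 h4
      _ = f x := one_mul _
      _ ≤ M := hM x hx1

/-- LPA. -/
theorem lpa (_int : IntStmt) (crc : CrcStmt) : LpaStmt := by
  intro n M p q f hn hM hf hfM hp hpq hq
  have hn' : (4 : ℝ) ≤ n := by exact_mod_cast hn
  have hp2 : p ^ 2 ≤ q ^ 2 := pow_le_pow_left₀ hp hpq 2
  have hq2 : q ^ 2 ≤ 1 / 4 := by nlinarith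
  have hp0 : 0 ≤ p ^ 2 := sq_nonneg p
  obtain ⟨c, hc⟩ : ∃ c : ℝ, c = Real.sqrt (1 - p ^ 2) := ⟨_, rfl⟩
  obtain ⟨d, hd⟩ : ∃ d : ℝ, d = Real.sqrt (1 - q ^ 2) := ⟨_, rfl⟩
  rw [← hc, ← hd]
  have hc2 : c ^ 2 = 1 - p ^ 2 := by rw [hc]; exact Real.sq_sqrt (by linarith)
  have hd2 : d ^ 2 = 1 - q ^ 2 := by rw [hd]; exact Real.sq_sqrt (by linarith)
  have hc0 : 0 < c := by rw [hc]; exact Real.sqrt_pos.2 (by linarith)
  have hd0 : 0 < d := by rw [hd]; exact Real.sqrt_pos.2 (by linarith)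
  have hc1 : c ≤ 1 := by rw [hc]; exact Real.sqrt_le_one.2 (by linarith)
  have hd1 : d ≤ 1 := by rw [hd]; exact Real.sqrt_le_one.2 (by linarith)
  have hdc : d ≤ c := by rw [hc, hd]; exact Real.sqrt_le_sqrt (by linarith)
  rw [(crc n f c hc0 hc1).1, (crc n f d hd0 hd1).1]
  obtain ⟨m, hm⟩ : ∃ m : ℝ, m = ((n : ℝ) - 2) / 2 := ⟨_, rfl⟩
  rw [← hm]
  have hm1 : 1 ≤ m := by linarith
  obtain ⟨K, hK⟩ : ∃ K : ℝ, K = n * M * (q ^ 2 - p ^ 2) := ⟨_, rfl⟩
  rw [← hK]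
  have hK0 : 0 ≤ K := by
    rw [hK]
    exact mul_nonneg (mul_nonneg (by linarith) hM) (by linarith)
  have i1 := int_F hf hc0 hc1 (by linarith : 0 ≤ m) le_rfl hd0.le hdc
  have i2 := int_F hf hc0 hc1 (by linarith : 0 ≤ m) hd0.le hdc le_rfl
  have i3 := int_F hf hd0 hd1 (by linarith : 0 ≤ m) le_rfl hd0.le le_rfl
  have s0 := intervalIntegral.integral_add_adjacent_intervals i1 i2
  -- the part `[0, d]`
  have s1 : ∫ x in (0 : ℝ)..d, (1 - x ^ 2 / c ^ 2) ^ m * f x ≤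
      ∫ x in (0 : ℝ)..d, ((1 - x ^ 2 / d ^ 2) ^ m * f x + K) := by
    refine intervalIntegral.integral_mono_on_of_le_Ioo hd0.le i1
      (i3.add intervalIntegrable_const) ?_
    intro x hx
    have hx1 : x < 1 := lt_of_lt_of_le hx.2 hd1
    have f0 : 0 ≤ f x := hf.nonneg x ⟨hx.1.le, hx1.le⟩
    have f1 : f x ≤ M := hfM x hx.1 hx1
    have hxx : x ^ 2 ≤ d ^ 2 := pow_le_pow_left₀ hx.1.le hx.2.le 2
    have hv : 0 ≤ 1 - x ^ 2 / d ^ 2 := by
      rw [sub_nonneg, div_le_one (by positivity)]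
      exact hxx
    have hdiff : x ^ 2 / d ^ 2 - x ^ 2 / c ^ 2 ≤ 16 / 9 * (q ^ 2 - p ^ 2) := by
      have e1 : x ^ 2 / d ^ 2 - x ^ 2 / c ^ 2 = x ^ 2 * (c ^ 2 - d ^ 2) / (d ^ 2 * c ^ 2) := by
        field_simp
      rw [e1, div_le_iff₀ (by positivity)]
      have e2 : c ^ 2 - d ^ 2 = q ^ 2 - p ^ 2 := by rw [hc2, hd2]; ring
      rw [e2]
      have e3 : 9 / 16 ≤ d ^ 2 * c ^ 2 := by
        rw [hc2, hd2]
        nlinarith
      have e4 : x ^ 2 ≤ 1 := by nlinarith [hx.1]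
      have e5 : 0 ≤ q ^ 2 - p ^ 2 := by linarith
      have e6 : x ^ 2 * (q ^ 2 - p ^ 2) ≤ 1 * (q ^ 2 - p ^ 2) := mul_le_mul_of_nonneg_right e4 e5
      have e7 : 16 / 9 * (q ^ 2 - p ^ 2) * (9 / 16) ≤ 16 / 9 * (q ^ 2 - p ^ 2) * (d ^ 2 * c ^ 2) :=
        mul_le_mul_of_nonneg_left e3 (by linarith)
      linarith
    have hvu : 1 - x ^ 2 / d ^ 2 ≤ 1 - x ^ 2 / c ^ 2 := by
      have : x ^ 2 / c ^ 2 ≤ x ^ 2 / d ^ 2 :=
        div_le_div_of_nonneg_left (sq_nonneg x) (by positivity) (pow_le_pow_left₀ hd0.le hdc 2)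
      linarith
    have hu1 : 1 - x ^ 2 / c ^ 2 ≤ 1 := by
      have : 0 ≤ x ^ 2 / c ^ 2 := by positivity
      linarith
    have h1 := pow_sub_le hv hvu hu1 hm1
    have h2 : m * ((1 - x ^ 2 / c ^ 2) - (1 - x ^ 2 / d ^ 2)) ≤ n * (q ^ 2 - p ^ 2) := by
      have e1 : m * ((1 - x ^ 2 / c ^ 2) - (1 - x ^ 2 / d ^ 2)) ≤
          m * (16 / 9 * (q ^ 2 - p ^ 2)) := by
        refine mul_le_mul_of_nonneg_left ?_ (by linarith)
        linarith
      have e2 : m * (16 / 9) * (q ^ 2 - p ^ 2) ≤ n * (q ^ 2 - p ^ 2) := by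
        refine mul_le_mul_of_nonneg_right ?_ (by linarith)
        linarith
      linarith
    have h3 : ((1 - x ^ 2 / c ^ 2) ^ m - (1 - x ^ 2 / d ^ 2) ^ m) * f x ≤
        n * (q ^ 2 - p ^ 2) * f x := mul_le_mul_of_nonneg_right (h1.trans h2) f0
    have h4 : n * (q ^ 2 - p ^ 2) * f x ≤ K := by
      rw [hK]
      have : n * (q ^ 2 - p ^ 2) * f x ≤ n * (q ^ 2 - p ^ 2) * M :=
        mul_le_mul_of_nonneg_left f1 (mul_nonneg (by linarith) (by linarith))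
      linarith
    have h5 : ((1 - x ^ 2 / c ^ 2) ^ m - (1 - x ^ 2 / d ^ 2) ^ m) * f x =
        (1 - x ^ 2 / c ^ 2) ^ m * f x - (1 - x ^ 2 / d ^ 2) ^ m * f x := by ring
    linarith
  rw [intervalIntegral.integral_add i3 intervalIntegrable_const,
    intervalIntegral.integral_const, smul_eq_mul] at s1
  -- the part `[d, c]`
  have s2 : ∫ x in d..c, (1 - x ^ 2 / c ^ 2) ^ m * f x ≤ ∫ _x in d..c, K := by
    refine intervalIntegral.integral_mono_on_of_le_Ioo hdc i2 intervalIntegrable_const ?_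
    intro x hx
    have hx0 : 0 < x := hd0.trans hx.1
    have hx1 : x < 1 := lt_of_lt_of_le hx.2 hc1
    have f0 : 0 ≤ f x := hf.nonneg x ⟨hx0.le, hx1.le⟩
    have f1 : f x ≤ M := hfM x hx0 hx1
    have hxx : x ^ 2 ≤ c ^ 2 := pow_le_pow_left₀ hx0.le hx.2.le 2
    have hdx : d ^ 2 ≤ x ^ 2 := pow_le_pow_left₀ hd0.le hx.1.le 2
    have hu0 : 0 ≤ 1 - x ^ 2 / c ^ 2 := by
      rw [sub_nonneg, div_le_one (by positivity)]
      exact hxx
    have hu1 : 1 - x ^ 2 / c ^ 2 ≤ n * (q ^ 2 - p ^ 2) := by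
      have e1 : 1 - x ^ 2 / c ^ 2 ≤ 4 / 3 * (q ^ 2 - p ^ 2) := by
        have e2 : 1 - x ^ 2 / c ^ 2 = (c ^ 2 - x ^ 2) / c ^ 2 := by field_simp
        rw [e2, div_le_iff₀ (by positivity)]
        have e3 : c ^ 2 - x ^ 2 ≤ q ^ 2 - p ^ 2 := by
          rw [hc2]
          rw [hd2] at hdx
          linarith
        have e4 : 3 / 4 ≤ c ^ 2 := by rw [hc2]; linarith
        have e5 : 4 / 3 * (q ^ 2 - p ^ 2) * (3 / 4) ≤ 4 / 3 * (q ^ 2 - p ^ 2) * c ^ 2 :=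
          mul_le_mul_of_nonneg_left e4 (by linarith)
        linarith
      have e6 : 4 / 3 * (q ^ 2 - p ^ 2) ≤ n * (q ^ 2 - p ^ 2) :=
        mul_le_mul_of_nonneg_right (by linarith) (by linarith)
      linarith
    have hu2 : 1 - x ^ 2 / c ^ 2 ≤ 1 := by
      have : 0 ≤ x ^ 2 / c ^ 2 := by positivity
      linarith
    have h1 := pow_sub_le le_rfl hu0 hu2 hm1
    rw [Real.zero_rpow (by linarith), sub_zero, sub_zero] at h1
    have h2 : (1 - x ^ 2 / c ^ 2) ^ m ≤ 1 - x ^ 2 / c ^ 2 := by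
      rcases eq_or_lt_of_le hu0 with h | h
      · rw [← h, Real.zero_rpow (by linarith)]
      · have := Real.rpow_le_rpow_of_exponent_ge h hu2 hm1
        rwa [Real.rpow_one] at this
    have h3 : (1 - x ^ 2 / c ^ 2) ^ m * f x ≤ n * (q ^ 2 - p ^ 2) * f x :=
      mul_le_mul_of_nonneg_right (h2.trans hu1) f0
    have h4 : n * (q ^ 2 - p ^ 2) * f x ≤ K := by
      rw [hK]
      have : n * (q ^ 2 - p ^ 2) * f x ≤ n * (q ^ 2 - p ^ 2) * M :=
        mul_le_mul_of_nonneg_left f1 (mul_nonneg (by linarith) (by linarith))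
      linarith
    linarith
  rw [intervalIntegral.integral_const, smul_eq_mul] at s2
  have s3 : c * K ≤ 1 * K := mul_le_mul_of_nonneg_right hc1 hK0
  rw [← s0]
  linarith

end Pool.Agent.REV.H69
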