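import Pool.Agent.REV.StmtsA1

/-!
# MRA of the squad REV (problem MP_bbfd73_gt)

Monotonicity of the two integrals.
-/

set_option autoImplicit false

namespace Pool.Agent.REV.H69

open Set
open Pool.Agent.REV

theorem mono_int (tau : TauStmt) {g : ℝ} (hg : 0 < g) (k u : ℝ → ℝ) (hk : Continuous k)
    (hk0 : ∀ ρ ∈ Icc (0 : ℝ) 1, 0 ≤ k ρ) (hu : MonotoneOn u (Icc 0 1)) :
    MonotoneOn (fun c => ∫ ρ in (0 : ℝ)..1, k ρ * u (ta g c ρ)) (Icc 0 1) := by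
  have hint : ∀ c ∈ Icc (0 : ℝ) 1,
      IntervalIntegrable (fun ρ => k ρ * u (ta g c ρ)) MeasureTheory.volume 0 1 := by
    intro c hc
    have hm : MonotoneOn (fun ρ => u (ta g c ρ)) (uIcc 0 1) := by
      rw [uIcc_of_le zero_le_one]
      intro ρ hρ ρ' hρ' h
      exact hu ((tau g hg).1 c ρ hc.1 hc.2 hρ.1 hρ.2).2.2
        ((tau g hg).1 c ρ' hc.1 hc.2 hρ'.1 hρ'.2).2.2
        ((tau g hg).2.2 c ρ ρ' hc.1 hc.2 hρ.1 h hρ'.2)
    exact (hm.intervalIntegrable).continuousOn_mul hk.continuousOn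
  intro c hc c' hc' h
  refine intervalIntegral.integral_mono_on zero_le_one (hint c hc) (hint c' hc') ?_
  intro ρ hρ
  refine mul_le_mul_of_nonneg_left ?_ (hk0 ρ hρ)
  exact hu ((tau g hg).1 c ρ hc.1 hc.2 hρ.1 hρ.2).2.2
    ((tau g hg).1 c' ρ hc'.1 hc'.2 hρ.1 hρ.2).2.2
    ((tau g hg).2.1 c c' ρ hc.1 h hc'.2 hρ.1 hρ.2)

theorem anti_int (tau : TauStmt) {g : ℝ} (hg : 0 < g) (k u : ℝ → ℝ) (hk : Continuous k)
    (hk0 : ∀ ρ ∈ Icc (0 : ℝ) 1, 0 ≤ k ρ) (hu : AntitoneOn u (Icc 0 1)) :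
    AntitoneOn (fun c => ∫ ρ in (0 : ℝ)..1, k ρ * u (ta g c ρ)) (Icc 0 1) := by
  have h1 := mono_int tau hg k (fun x => -u x) hk hk0 (fun a ha b hb h => neg_le_neg (hu ha hb h))
  intro c hc c' hc' h
  have h2 := h1 hc hc' h
  simp only [mul_neg, intervalIntegral.integral_neg] at h2
  exact neg_le_neg_iff.1 h2

/-- MRA. -/
theorem mra (tau : TauStmt) : MraStmt := by
  intro n g f hn hg hf
  have hn' : (4 : ℝ) ≤ n := by exact_mod_cast hn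
  have hkA : Continuous fun ρ : ℝ => (1 - ρ ^ 2) ^ (((n : ℝ) - 2) / 2) :=
    (Real.continuous_rpow_const (by linarith)).comp (continuous_const.sub (continuous_pow 2))
  have hkB : Continuous fun ρ : ℝ => ρ ^ 2 * (1 - ρ ^ 2) ^ (((n : ℝ) - 4) / 2) :=
    (continuous_pow 2).mul
      ((Real.continuous_rpow_const (by linarith)).comp (continuous_const.sub (continuous_pow 2)))
  have hsq : ∀ ρ ∈ Icc (0 : ℝ) 1, 0 ≤ 1 - ρ ^ 2 := by
    intro ρ hρ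
    nlinarith [hρ.1, hρ.2]
  have hkA0 : ∀ ρ ∈ Icc (0 : ℝ) 1, 0 ≤ (1 - ρ ^ 2) ^ (((n : ℝ) - 2) / 2) :=
    fun ρ hρ => Real.rpow_nonneg (hsq ρ hρ) _
  have hkB0 : ∀ ρ ∈ Icc (0 : ℝ) 1, 0 ≤ ρ ^ 2 * (1 - ρ ^ 2) ^ (((n : ℝ) - 4) / 2) :=
    fun ρ hρ => mul_nonneg (sq_nonneg ρ) (Real.rpow_nonneg (hsq ρ hρ) _)
  have hEl : ∀ t ∈ Icc (0 : ℝ) 1, 0 ≤ El n g f t := by
    intro t ht
    unfold El
    refine mul_nonneg (Real.rpow_nonneg ?_ _) (hf t ht)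
    exact ((tau g hg).1 t 0 ht.1 ht.2 le_rfl zero_le_one).2.1.le
  refine ⟨?_, ?_, ?_⟩
  · intro c hc
    constructor
    · refine intervalIntegral.integral_nonneg zero_le_one fun ρ hρ => ?_
      exact mul_nonneg (hkA0 ρ hρ) (hEl _ ((tau g hg).1 c ρ hc.1 hc.2 hρ.1 hρ.2).2.2)
    · refine intervalIntegral.integral_nonneg zero_le_one fun ρ hρ => ?_
      exact mul_nonneg (hkB0 ρ hρ) (hEl _ ((tau g hg).1 c ρ hc.1 hc.2 hρ.1 hρ.2).2.2)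
  · intro h
    exact ⟨mono_int tau hg _ _ hkA hkA0 h, mono_int tau hg _ _ hkB hkB0 h⟩
  · intro h
    exact ⟨anti_int tau hg _ _ hkA hkA0 h, anti_int tau hg _ _ hkB hkB0 h⟩

end Pool.Agent.REV.H69
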