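import Pool.Agent.REV.StmtsU

/-!
# RPO of the squad REV (problem MP_bbfd73_gt)

`RA` and `RB` of a positive continuous density are positive and bounded.
-/

set_option autoImplicit false

namespace Pool.Agent.REV.H69

open Set
open Pool.Agent.REV

theorem pos_bdd_int {f w : ℝ → ℝ} {M : ℝ} (hw : Continuous w) (hw0 : ∀ r ∈ Ioo (0 : ℝ) 1, 0 < w r)
    (hw1 : ∀ r ∈ Icc (0 : ℝ) 1, 0 ≤ w r ∧ w r ≤ 1) (hf : ContinuousOn f (Icc 0 1))
    (hfp : ∀ t ∈ Icc (0 : ℝ) 1, 0 < f t ∧ f t ≤ M) {c : ℝ} (hc : c ∈ Icc (0 : ℝ) 1) :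
    0 < ∫ r in (0 : ℝ)..1, w r * f (r * c) ∧ ∫ r in (0 : ℝ)..1, w r * f (r * c) ≤ M := by
  have hmem : ∀ r ∈ Icc (0 : ℝ) 1, r * c ∈ Icc (0 : ℝ) 1 := fun r hr =>
    ⟨mul_nonneg hr.1 hc.1, mul_le_one₀ hr.2 hc.1 hc.2⟩
  have hcont : ContinuousOn (fun r => w r * f (r * c)) (Icc 0 1) :=
    hw.continuousOn.mul (hf.comp (continuous_id.mul continuous_const).continuousOn hmem)
  have hint : IntervalIntegrable (fun r => w r * f (r * c)) MeasureTheory.volume 0 1 := by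
    refine ContinuousOn.intervalIntegrable ?_
    rw [uIcc_of_le zero_le_one]
    exact hcont
  constructor
  · refine intervalIntegral.intervalIntegral_pos_of_pos_on hint ?_ zero_lt_one
    intro r hr
    exact mul_pos (hw0 r hr) (hfp _ (hmem r ⟨hr.1.le, hr.2.le⟩)).1
  · have h := intervalIntegral.integral_mono_on zero_le_one hint
      (intervalIntegrable_const (c := M)) (fun r hr => by
        have h1 := hfp _ (hmem r hr)
        have h2 := hw1 r hr
        calc w r * f (r * c) ≤ 1 * f (r * c) := mul_le_mul_of_nonneg_right h2.2 h1.1.le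
          _ = f (r * c) := one_mul _
          _ ≤ M := h1.2)
    rw [intervalIntegral.integral_const] at h
    simpa using h

/-- RPO. -/
theorem rpo : RpoStmt := by
  intro n f M hn hf hfp c hc
  have hn' : (4 : ℝ) ≤ n := by exact_mod_cast hn
  have hsq : ∀ ρ ∈ Icc (0 : ℝ) 1, 0 ≤ 1 - ρ ^ 2 ∧ 1 - ρ ^ 2 ≤ 1 := by
    intro ρ hρ
    constructor
    · nlinarith [hρ.1, hρ.2]
    · nlinarith [hρ.1, hρ.2]
  have hsq' : ∀ ρ ∈ Ioo (0 : ℝ) 1, 0 < 1 - ρ ^ 2 := by
    intro ρ hρ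
    nlinarith [hρ.1, hρ.2]
  have hkA : Continuous fun ρ : ℝ => (1 - ρ ^ 2) ^ (((n : ℝ) - 2) / 2) :=
    (Real.continuous_rpow_const (by linarith)).comp (continuous_const.sub (continuous_pow 2))
  have hkB : Continuous fun ρ : ℝ => ρ ^ 2 * (1 - ρ ^ 2) ^ (((n : ℝ) - 4) / 2) :=
    (continuous_pow 2).mul
      ((Real.continuous_rpow_const (by linarith)).comp (continuous_const.sub (continuous_pow 2)))
  have hA := pos_bdd_int (f := f) (M := M) hkA
    (fun r hr => Real.rpow_pos_of_pos (hsq' r hr) _)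
    (fun r hr => ⟨Real.rpow_nonneg (hsq r hr).1 _,
      Real.rpow_le_one (hsq r hr).1 (hsq r hr).2 (by linarith)⟩) hf hfp hc
  have hB := pos_bdd_int (f := f) (M := M) hkB
    (fun r hr => mul_pos (by have := hr.1; positivity) (Real.rpow_pos_of_pos (hsq' r hr) _))
    (fun r hr => by
      have h1 : 0 ≤ (1 - r ^ 2) ^ (((n : ℝ) - 4) / 2) := Real.rpow_nonneg (hsq r hr).1 _
      have h2 : (1 - r ^ 2) ^ (((n : ℝ) - 4) / 2) ≤ 1 :=
        Real.rpow_le_one (hsq r hr).1 (hsq r hr).2 (by linarith)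
      have h3 : r ^ 2 ≤ 1 := by
        have := (hsq r hr).1
        linarith
      exact ⟨mul_nonneg (sq_nonneg r) h1, mul_le_one₀ h3 h1 h2⟩) hf hfp hc
  exact ⟨hA.1, hB.1, hA.2, hB.2⟩

end Pool.Agent.REV.H69
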